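import Pool.Agent.J6H9.EW.Stm
import Pool.Agent.J6H24.EU.Srt

set_option autoImplicit false

namespace Pool.Agent.J6H44.EW.Sum

open Filter Topology Pool.Agent.J6H9.EU Pool.Agent.J6H9.EV Pool.Agent.J6H9.EW

lemma ratio_iff {u d : ℕ → ℝ} (hu : ∀ n, 0 ≤ u n) (hd : ∀ᶠ n in atTop, 0 < d n) :
    Tendsto (fun n => u n / d n) atTop (𝓝 0) ↔ ∀ ε : ℝ, 0 < ε → ∀ᶠ n in atTop, u n ≤ ε * d n := by
  constructor
  · intro h ε hε
    filter_upwards [h.eventually (gt_mem_nhds hε), hd] with n h1 h2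
    rw [div_lt_iff₀ h2] at h1
    exact h1.le
  · intro h
    rw [Metric.tendsto_atTop']
    intro ε hε
    obtain ⟨N, hN⟩ := eventually_atTop.1 ((h (ε / 2) (by positivity)).and hd)
    refine ⟨N, fun n hn => ?_⟩
    obtain ⟨h1, h2⟩ := hN n hn.le
    rw [Real.dist_eq, sub_zero, abs_of_nonneg (div_nonneg (hu n) h2.le), div_lt_iff₀ h2]
    nlinarith

/-- restricted partial sums -/
noncomputable def FA (f : ℕ → ℝ) (A : Set ℕ) (n : ℕ) : ℝ := by
  classical exact ∑ i ∈ Finset.range n, if i ∈ A then f i else 0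

lemma FA_mono {f : ℕ → ℝ} (hf : ∀ n, 0 ≤ f n) (A : Set ℕ) : Monotone (FA f A) := by
  classical
  refine monotone_nat_of_le_succ (fun n => ?_)
  unfold FA
  rw [Finset.sum_range_succ]
  have : 0 ≤ (if n ∈ A then f n else 0) := by split_ifs; exacts [hf n, le_rfl]
  linarith

lemma FA_nonneg {f : ℕ → ℝ} (hf : ∀ n, 0 ≤ f n) (A : Set ℕ) (n : ℕ) : 0 ≤ FA f A n := by
  have := FA_mono hf A (Nat.zero_le n)
  simpa [FA] using this

lemma FA_univ (f : ℕ → ℝ) (n : ℕ) : FA f Set.univ n = F f n := by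
  classical
  simp [FA, F]

lemma mem_EU (f : ℕ → ℝ) (A : Set ℕ) :
    A ∈ EU f ↔ Tendsto (fun n => FA f A n / F f n) atTop (𝓝 0) := by
  classical
  unfold EU FA F
  simp only [Set.mem_setOf_eq, Finset.sum_filter]

lemma F_mono {f : ℕ → ℝ} (hf : ∀ n, 0 ≤ f n) : Monotone (F f) := by
  refine monotone_nat_of_le_succ (fun n => ?_)
  unfold F
  rw [Finset.sum_range_succ]
  linarith [hf n]

lemma F_nonneg {f : ℕ → ℝ} (hf : ∀ n, 0 ≤ f n) (n : ℕ) : 0 ≤ F f n :=
  Finset.sum_nonneg (fun i _ => hf i)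

lemma exists_a {f : ℕ → ℝ} (hf : IsW f) : ∃ a : ℕ → ℕ, (∀ v i, i < a v ↔ F f i < v) ∧
    (∀ v : ℕ, (v : ℝ) ≤ F f (a v)) ∧ (∀ᶠ v : ℕ in atTop, F f (a v) ≤ 2 * v) ∧ Tendsto a atTop atTop := by
  classical
  obtain ⟨h0, h1, h2⟩ := hf
  have hex : ∀ v : ℕ, ∃ i, (v : ℝ) ≤ F f i := fun v => (h1.eventually (eventually_ge_atTop (v : ℝ))).exists
  have hiff : ∀ v i, i < Nat.find (hex v) ↔ F f i < v := by
    intro v i
    constructor
    · intro h
      have := Nat.find_min (hex v) h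
      exact not_le.1 this
    · intro h
      by_contra hc
      have h3 : F f (Nat.find (hex v)) ≤ F f i := F_mono h0 (not_lt.1 hc)
      have h4 := Nat.find_spec (hex v)
      linarith
  refine ⟨fun v => Nat.find (hex v), hiff, fun v => Nat.find_spec (hex v), ?_, ?_⟩
  · have h3 := h2.eventually (gt_mem_nhds (by norm_num : (0 : ℝ) < 1 / 2))
    obtain ⟨K, hK⟩ := eventually_atTop.1 h3
    obtain ⟨V, hV⟩ := exists_nat_gt (F f K)
    filter_upwards [eventually_ge_atTop (V + 1)] with v hv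
    have hvK : F f K < v := by
      have : (V : ℝ) ≤ v := by exact_mod_cast (by omega : V ≤ v)
      linarith
    have h4 := (hiff v K).2 hvK
    obtain ⟨k, hk⟩ : ∃ k, Nat.find (hex v) = k + 1 := ⟨Nat.find (hex v) - 1, by omega⟩
    have h5 : F f k < v := (hiff v k).1 (by omega)
    have h6 := hK k (by omega)
    have h7 : F f (k + 1) = F f k + f k := by unfold F; rw [Finset.sum_range_succ]
    have h8 : 0 < F f (k + 1) := by
      have h9 := Nat.find_spec (hex v)
      rw [hk] at h9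
      have : (1 : ℝ) ≤ v := by exact_mod_cast (by omega : 1 ≤ v)
      linarith
    have h6' : f k < 1 / 2 * F f (k + 1) := by
      have : f k / F f (k + 1) < 1 / 2 := h6
      rwa [div_lt_iff₀ h8] at this
    rw [hk]
    linarith
  · rw [tendsto_atTop]
    intro m
    obtain ⟨V, hV⟩ := exists_nat_gt (F f m)
    filter_upwards [eventually_ge_atTop V] with v hv
    have : F f m < v := by
      have : (V : ℝ) ≤ v := by exact_mod_cast hv
      linarith
    exact ((hiff v m).2 this).le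

lemma fwd {f : ℕ → ℝ} (A : Set ℕ) {a : ℕ → ℕ}
    (hbd : ∀ᶠ v : ℕ in atTop, F f (a v) ≤ 2 * v) (hat : Tendsto a atTop atTop)
    (hlim : ∀ ε : ℝ, 0 < ε → ∀ᶠ m in atTop, FA f A m ≤ ε * F f m) (ε : ℝ) (hε : 0 < ε) :
    ∀ᶠ v : ℕ in atTop, FA f A (a (v + 1)) ≤ ε * v := by
  have hs : Tendsto (fun v : ℕ => v + 1) atTop atTop := tendsto_add_atTop_nat 1
  filter_upwards [(hat.comp hs).eventually (hlim (ε / 4) (by positivity)), hs.eventually hbd,
    eventually_ge_atTop 1] with v h1 h2 h3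
  simp only [Function.comp] at h1
  have h4 : (1 : ℝ) ≤ v := by exact_mod_cast h3
  push_cast at h2
  nlinarith

lemma back {f : ℕ → ℝ} (h0 : ∀ n, 0 ≤ f n) (hFt : Tendsto (F f) atTop atTop) (A : Set ℕ) {a : ℕ → ℕ}
    (ha : ∀ v i, i < a v ↔ F f i < v) (ha2 : ∀ v : ℕ, (v : ℝ) ≤ F f (a v))
    (hbd : ∀ᶠ v : ℕ in atTop, F f (a v) ≤ 2 * v) (hat : Tendsto a atTop atTop)
    {H HA : ℕ → ℝ} {NN : ℕ → ℕ} (hNN : Tendsto NN atTop atTop)
    (hH : ∀ᶠ k in atTop, H (NN k) ≤ 4 * (⌊F f k⌋₊ + 1))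
    (hHA : ∀ k, FA f A (a ⌊F f k⌋₊) ≤ HA (NN k))
    (hlim : ∀ ε : ℝ, 0 < ε → ∀ᶠ N in atTop, HA N ≤ ε * H N) (ε : ℝ) (hε : 0 < ε) :
    ∀ᶠ m in atTop, FA f A m ≤ ε * F f m := by
  have hv : Tendsto (fun m => ⌊F f m⌋₊ + 1) atTop atTop :=
    (tendsto_add_atTop_nat 1).comp (tendsto_nat_floor_atTop.comp hFt)
  have hk : Tendsto (fun m => a (⌊F f m⌋₊ + 1)) atTop atTop := hat.comp hv
  filter_upwards [hk.eventually hH, hv.eventually hbd,
    (hNN.comp hk).eventually (hlim (ε / 20) (by positivity)), hFt.eventually (eventually_ge_atTop 1)]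
    with m h1 h2 h3 h4
  simp only [Function.comp] at h3
  set v := ⌊F f m⌋₊ with hvdef
  set k := a (v + 1) with hkdef
  have hFm : F f m < v + 1 := Nat.lt_floor_add_one _
  have hvm : (v : ℝ) ≤ F f m := Nat.floor_le (F_nonneg h0 m)
  have h5 := ha2 (v + 1)
  push_cast at h5 h2
  have h6 : v + 1 ≤ ⌊F f k⌋₊ := Nat.le_floor (by push_cast; exact h5)
  have h7 : (⌊F f k⌋₊ : ℝ) ≤ F f k := Nat.floor_le (F_nonneg h0 k)
  have h8 : m ≤ a ⌊F f k⌋₊ := by
    refine ((ha _ _).2 ?_).le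
    have : ((v + 1 : ℕ) : ℝ) ≤ ⌊F f k⌋₊ := by exact_mod_cast h6
    push_cast at this
    linarith
  have h9 := (FA_mono h0 A h8).trans (hHA k)
  have h10 : H (NN k) ≤ 20 * F f m := by
    have : (⌊F f k⌋₊ : ℝ) ≤ 2 * (v + 1) := h7.trans h2
    nlinarith
  nlinarith

lemma ev (ψ : ℕ ⊕ ℕ ≃ ℕ) {P : ℕ ⊕ ℕ → Prop} (h1 : ∀ᶠ i in atTop, P (Sum.inl i))
    (h2 : ∀ᶠ i in atTop, P (Sum.inr i)) : ∀ᶠ n in atTop, P (ψ.symm n) := by
  have hfin : ∀ᶠ x in (cofinite : Filter (ℕ ⊕ ℕ)), P x := by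
    rw [← Nat.cofinite_eq_atTop, eventually_cofinite] at h1 h2
    rw [eventually_cofinite]
    refine ((h1.image Sum.inl).union (h2.image Sum.inr)).subset ?_
    rintro (i | i) hi
    · exact Or.inl ⟨i, hi, rfl⟩
    · exact Or.inr ⟨i, hi, rfl⟩
  have := ψ.symm.injective.tendsto_cofinite.eventually hfin
  rwa [Nat.cofinite_eq_atTop] at this

theorem main : S_SUM := by
  classical
  intro f g hf hg
  obtain ⟨a, ha, ha2, hab, hat⟩ := exists_a hf
  obtain ⟨b, hb, hb2, hbb, hbt⟩ := exists_a hg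
  obtain ⟨hf0, hf1, hf2⟩ := hf
  obtain ⟨hg0, hg1, hg2⟩ := hg
  have hFt : Tendsto (F f) atTop atTop := hf1
  have hGt : Tendsto (F g) atTop atTop := hg1
  set δ : ℕ ⊕ ℕ → ℕ := Sum.elim (fun i => ⌊F f i⌋₊) (fun i => ⌊F g i⌋₊) with hδ
  set w : ℕ ⊕ ℕ → ℝ := Sum.elim f g with hw
  have hw0 : ∀ x, 0 ≤ w x := by rintro (i | i); exacts [hf0 i, hg0 i]
  have hδf : Tendsto (fun i => δ (Sum.inl i)) atTop atTop := tendsto_nat_floor_atTop.comp hFt
  have hδg : Tendsto (fun i => δ (Sum.inr i)) atTop atTop := tendsto_nat_floor_atTop.comp hGt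
  set e : ℕ ⊕ ℕ ≃ ℕ := Equiv.natSumNatEquivNat with he
  have hδt : ∀ ψ : ℕ ⊕ ℕ ≃ ℕ, Tendsto (fun n => δ (ψ.symm n)) atTop atTop := by
    intro ψ
    rw [tendsto_atTop]
    intro m
    exact ev ψ (P := fun x => m ≤ δ x) (hδf.eventually (eventually_ge_atTop m))
      (hδg.eventually (eventually_ge_atTop m))
  obtain ⟨φ, hφ⟩ := Pool.Agent.J6H24.EU.Srt.main (fun n => δ (e.symm n)) (hδt e)
  set ψ : ℕ ⊕ ℕ ≃ ℕ := e.trans φ with hψ
  have hord : ∀ x y, δ x < δ y → ψ x < ψ y := by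
    intro x y hxy
    have := hφ (e x) (e y) (by simpa using hxy)
    simpa [hψ] using this
  have hv := hδt ψ
  set h : ℕ → ℝ := fun n => w (ψ.symm n) with hh
  have hh0 : ∀ n, 0 ≤ h n := fun n => hw0 _
  -- sums over initial segments
  have hsum : ∀ (A : Set (ℕ ⊕ ℕ)) (N : ℕ), FA h (ψ '' A) N =
      ∑ y ∈ (Finset.range N).map ψ.symm.toEmbedding, if y ∈ A then w y else 0 := by
    intro A N
    unfold FA
    rw [Finset.sum_map]
    refine Finset.sum_congr rfl (fun n _ => ?_)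
    have : n ∈ ψ '' A ↔ ψ.symm.toEmbedding n ∈ A := by
      constructor
      · rintro ⟨x, hx, rfl⟩
        simpa using hx
      · intro hx
        exact ⟨_, hx, by simp⟩
    simp only [this, hh]
    rfl
  have hds : ∀ (A : Set (ℕ ⊕ ℕ)) (p q : ℕ), ∑ y ∈ (Finset.range p).disjSum (Finset.range q),
      (if y ∈ A then w y else 0) = FA f (Sum.inl ⁻¹' A) p + FA g (Sum.inr ⁻¹' A) q := by
    intro A p q
    rw [Finset.sum_disjSum]
    rfl
  have hflf : ∀ i v, δ (Sum.inl i) < v ↔ i < a v := fun i v => by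
    rw [ha]; exact Nat.floor_lt (F_nonneg hf0 i)
  have hflg : ∀ i v, δ (Sum.inr i) < v ↔ i < b v := fun i v => by
    rw [hb]; exact Nat.floor_lt (F_nonneg hg0 i)
  have hLH : ∀ (A : Set (ℕ ⊕ ℕ)) (x : ℕ ⊕ ℕ),
      FA f (Sum.inl ⁻¹' A) (a (δ x)) + FA g (Sum.inr ⁻¹' A) (b (δ x)) ≤ FA h (ψ '' A) (ψ x) := by
    intro A x
    rw [hsum, ← hds]
    refine Finset.sum_le_sum_of_subset_of_nonneg ?_ (fun y _ _ => ?_)
    · intro y hy
      have hy' : δ y < δ x := by
        rcases y with i | i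
        · rw [hflf]; simpa using hy
        · rw [hflg]; simpa using hy
      rw [Finset.mem_map]
      exact ⟨ψ y, Finset.mem_range.2 (hord y x hy'), by simp⟩
    · split_ifs; exacts [hw0 y, le_rfl]
  have hUH : ∀ (A : Set (ℕ ⊕ ℕ)) (x : ℕ ⊕ ℕ),
      FA h (ψ '' A) (ψ x) ≤ FA f (Sum.inl ⁻¹' A) (a (δ x + 1)) + FA g (Sum.inr ⁻¹' A) (b (δ x + 1)) := by
    intro A x
    rw [hsum, ← hds]
    refine Finset.sum_le_sum_of_subset_of_nonneg ?_ (fun y _ _ => ?_)
    · intro y hy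
      rw [Finset.mem_map] at hy
      obtain ⟨n, hn, rfl⟩ := hy
      have hy' : δ (ψ.symm n) < δ x + 1 := by
        by_contra hc
        have := hord x (ψ.symm n) (by omega)
        simp at this
        simp at hn
        omega
      change ψ.symm n ∈ _
      revert hy'
      generalize ψ.symm n = y
      intro hy'
      rcases y with i | i
      · rw [hflf] at hy'; simpa using hy'
      · rw [hflg] at hy'; simpa using hy'
    · split_ifs; exacts [hw0 y, le_rfl]
  have hHlow : ∀ x, 2 * (δ x : ℝ) ≤ F h (ψ x) := by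
    intro x
    have h1 := hLH Set.univ x
    rw [Set.image_univ, ψ.surjective.range_eq] at h1
    simp only [Set.preimage_univ, FA_univ] at h1
    linarith [ha2 (δ x), hb2 (δ x)]
  have hHup : ∀ᶠ v : ℕ in atTop, ∀ x, δ x = v → F h (ψ x) ≤ 4 * ((v : ℝ) + 1) := by
    filter_upwards [(tendsto_add_atTop_nat 1).eventually hab, (tendsto_add_atTop_nat 1).eventually hbb]
      with v h1 h2 x hx
    have h3 := hUH Set.univ x
    rw [Set.image_univ, ψ.surjective.range_eq, hx] at h3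
    simp only [Set.preimage_univ, FA_univ] at h3
    push_cast at h1 h2
    linarith
  have hHt : Tendsto (F h) atTop atTop := by
    refine tendsto_atTop_mono (f := fun n => (δ (ψ.symm n) : ℝ)) (fun n => ?_)
      (tendsto_natCast_atTop_atTop.comp hv)
    have := hHlow (ψ.symm n)
    rw [Equiv.apply_symm_apply] at this
    have h2 : (0 : ℝ) ≤ δ (ψ.symm n) := Nat.cast_nonneg _
    linarith
  have hpos : ∀ {u : ℕ → ℝ}, Tendsto u atTop atTop → ∀ᶠ n in atTop, 0 < u n :=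
    fun hu => hu.eventually (eventually_gt_atTop 0)
  refine ⟨ψ, h, hh0, hHt, ?_, ?_⟩
  · -- small weights
    have hstep : ∀ {f : ℕ → ℝ}, (∀ n, 0 ≤ f n) → Tendsto (F f) atTop atTop →
        Tendsto (fun n => f n / ∑ i ∈ Finset.range (n + 1), f i) atTop (𝓝 0) → ∀ ε : ℝ, 0 < ε →
        ∀ᶠ i in atTop, f i ≤ ε * (2 * ⌊F f i⌋₊) := by
      intro f h0 hF h2 ε hε
      have hd : ∀ᶠ n in atTop, 0 < F f (n + 1) := (tendsto_add_atTop_nat 1).eventually (hpos hF)
      have h3 := (ratio_iff (u := f) (d := fun n => F f (n + 1)) h0 hd).1 h2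
      filter_upwards [h3 (min (1 / 2) (ε / 2)) (by positivity), hF.eventually (eventually_ge_atTop 1)]
        with i h4 h5
      have h6 : F f (i + 1) = F f i + f i := by unfold F; rw [Finset.sum_range_succ]
      have h7 : F f i < ⌊F f i⌋₊ + 1 := Nat.lt_floor_add_one _
      have h8 : (1 : ℝ) ≤ ⌊F f i⌋₊ := by exact_mod_cast Nat.le_floor (by simpa using h5)
      have h9 : f i ≤ 1 / 2 * F f (i + 1) := h4.trans
        (mul_le_mul_of_nonneg_right (min_le_left _ _) (F_nonneg h0 _))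
      have h10 : f i ≤ ε / 2 * F f (i + 1) := h4.trans
        (mul_le_mul_of_nonneg_right (min_le_right _ _) (F_nonneg h0 _))
      have h11 : F f (i + 1) ≤ 2 * F f i := by linarith
      have h12 : F f (i + 1) ≤ 4 * ⌊F f i⌋₊ := by linarith
      nlinarith
    refine (ratio_iff (u := h) (d := fun n => F h (n + 1)) hh0
      ((tendsto_add_atTop_nat 1).eventually (hpos hHt))).2 (fun ε hε => ?_)
    have h3 := ev ψ (P := fun x => w x ≤ ε * (2 * δ x)) (hstep hf0 hFt hf2 ε hε) (hstep hg0 hGt hg2 ε hε)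
    filter_upwards [h3] with n h4
    have h5 := hHlow (ψ.symm n)
    rw [Equiv.apply_symm_apply] at h5
    have h6 : F h n ≤ F h (n + 1) := F_mono hh0 (Nat.le_succ n)
    calc h n ≤ ε * (2 * δ (ψ.symm n)) := h4
      _ ≤ ε * F h (n + 1) := mul_le_mul_of_nonneg_left (h5.trans h6) hε.le
  · -- the ideal
    have key : ∀ A : Set (ℕ ⊕ ℕ), ψ '' A ∈ EU h ↔ A ∈ DS (EU f) (EU g) := by
      intro A
      unfold DS
      simp only [Set.mem_setOf_eq, mem_EU]
      rw [ratio_iff (FA_nonneg hh0 _) (hpos hHt), ratio_iff (FA_nonneg hf0 _) (hpos hFt),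
        ratio_iff (FA_nonneg hg0 _) (hpos hGt)]
      constructor
      · intro hlim
        constructor
        · refine back hf0 hFt _ ha ha2 hab hat (H := F h) (HA := FA h (ψ '' A))
            (NN := fun k => ψ (Sum.inl k)) (ψ.injective.comp Sum.inl_injective).nat_tendsto_atTop ?_ ?_ hlim
          · filter_upwards [hδf.eventually hHup] with k hk
            exact hk _ rfl
          · intro k
            have := hLH A (Sum.inl k)
            have h2 := FA_nonneg hg0 (Sum.inr ⁻¹' A) (b (δ (Sum.inl k)))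
            exact (le_add_of_nonneg_right h2).trans this
        · refine back hg0 hGt _ hb hb2 hbb hbt (H := F h) (HA := FA h (ψ '' A))
            (NN := fun k => ψ (Sum.inr k)) (ψ.injective.comp Sum.inr_injective).nat_tendsto_atTop ?_ ?_ hlim
          · filter_upwards [hδg.eventually hHup] with k hk
            exact hk _ rfl
          · intro k
            have := hLH A (Sum.inr k)
            have h2 := FA_nonneg hf0 (Sum.inl ⁻¹' A) (a (δ (Sum.inr k)))
            exact (le_add_of_nonneg_left h2).trans this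
      · rintro ⟨h1, h2⟩ ε hε
        have h3 := hv.eventually (fwd _ hab hat h1 ε hε)
        have h4 := hv.eventually (fwd _ hbb hbt h2 ε hε)
        filter_upwards [h3, h4] with n h5 h6
        have h7 := hUH A (ψ.symm n)
        have h8 := hHlow (ψ.symm n)
        rw [Equiv.apply_symm_apply] at h7 h8
        have h9 : ε * (2 * (δ (ψ.symm n) : ℝ)) ≤ ε * F h n := mul_le_mul_of_nonneg_left h8 hε.le
        linarith
    ext B
    constructor
    · rintro ⟨A, hA, rfl⟩
      exact (key A).2 hA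
    · intro hB
      refine ⟨ψ ⁻¹' B, (key _).1 ?_, ?_⟩
      · rwa [Set.image_preimage_eq _ ψ.surjective]
      · exact Set.image_preimage_eq _ ψ.surjective

end Pool.Agent.J6H44.EW.Sum
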